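import Mathlib
import Pool.Agent.Helper32.MeshProof

open PowerSeries
open scoped PowerSeries.WithPiTopology
open Pool.Agent.Helper32.Mesh

namespace Pool.Agent.Results.MP_f17a8d_co.MeshGF

/-- **Main theorem.** As formal power series (coefficientwise convergent sum over `m`),
`∑ₙ |𝒮ₙ(p)| xⁿ = ∑ₘ m! (x / (1 + x²))ᵐ`, where `p = (132, R)` is the mesh pattern of the
problem. -/
theorem result :
    HasSum (fun m : ℕ => (m.factorial : ℚ⟦X⟧) * (X * (1 + X ^ 2)⁻¹) ^ m)
      (PowerSeries.mk fun n => (avoiders n : ℚ)) :=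
  Pool.Agent.Helper32.Mesh.main

end Pool.Agent.Results.MP_f17a8d_co.MeshGF
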